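import Pool.Agent.Helper44.GH.Stmts
import Pool.Agent.Helper44.GF.MF2

open Finset MeasureTheory Filter Topology Matrix
open scoped ENNReal ContDiff

namespace Pool.Agent.Helper44.GH

open Pool.Agent.Helper44.GF Pool.Agent.Helper44.GN

section

variable {n m : ℕ} {Y : Type} [Fintype Y] [DecidableEq Y]

theorem dir_og (δ : ℝ) (r : Y → ℝ) (hδ : 0 < δ) (hr : ∀ y, 0 < r y)
    (η : Finset (Fin n × Y)) : tau δ r η ∈ Og n := by
  intro i
  unfold tau
  have : 0 ≤ ∑ y, if (i, y) ∈ η then r y else 0 :=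
    Finset.sum_nonneg fun y _ => by split_ifs <;> simp [(hr y).le]
  linarith

/-- The quotient. -/
noncomputable def dirq (V Z : Matrix (Fin n) (Fin m) ℝ) (δ : ℝ) (r : Y → ℝ)
    (η : Finset (Fin n × Y)) (i : Fin n) : ℝ :=
  ka V Z (tau δ r η) i ^ 2 / hh V (tau δ r η) i

theorem dir_ka0 (V Z : Matrix (Fin n) (Fin m) ℝ) (y : Fin n → ℝ) (i : Fin n) (h : V i = 0) :
    ka V Z y i = 0 := by
  unfold ka uu
  rw [h, Matrix.mulVec_zero, zero_dotProduct]

theorem dir_split (η : Finset (Fin n × Y)) (f : Fin n × Y → ℝ) :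
    ∑ i, ∑ y, f (i, y) = ∑ x ∈ η, f x + ∑ x ∈ ηᶜ, f x := by
  rw [Finset.sum_add_sum_compl, Fintype.sum_prod_type]

end

theorem st_DIR (hU : ST_UPD) (hS : ST_SGF) (hH : ST_H1I) (hN : Pool.Agent.Helper44.GF.ST_GNZ) :
    ST_DIR := by
  intro n m Y _ _ s ζ δ r z V Z hM hV
  have hog : ∀ η : Finset (Fin n × Y), tau δ r η ∈ Og n := dir_og δ r hM.d0 hM.r0
  -- the facts at `η`
  have hh0 : ∀ (η : Finset (Fin n × Y)) (i : Fin n), 0 ≤ hh V (tau δ r η) i ∧
      (hh V (tau δ r η) i = 0 → V i = 0) := fun η i =>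
    ⟨(hU n m V Z hV _ (hog η) i 0 le_rfl).2.2.1, (hU n m V Z hV _ (hog η) i 0 le_rfl).2.2.2.1⟩
  have hb : ∀ (η : Finset (Fin n × Y)) (x : Fin n × Y),
      0 < 1 + r x.2 * hh V (tau δ r η) x.1 := fun η x => by
    have := mul_nonneg (hM.r0 x.2).le (hh0 η x.1).1; linarith
  have hqf : ∀ η : Finset (Fin n × Y), ∀ i : Fin n, 0 < qf V (tau δ r η) := fun η i =>
    (hU n m V Z hV _ (hog η) i 0 le_rfl).2.1
  have hW0 : ∀ η : Finset (Fin n × Y), 0 ≤ W1 V δ r z η := by
    intro η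
    unfold W1 zw
    refine mul_nonneg (Finset.prod_nonneg fun x _ => (hM.z0 _).le) ?_
    rcases isEmpty_or_nonempty (Fin n) with hn | ⟨⟨i⟩⟩
    · refine Real.rpow_nonneg ?_ _
      have hm : m = 0 := by
        by_contra hm
        have h1 : (fun _ : Fin m => (1 : ℝ)) = 0 := hV (by funext i; exact hn.elim i)
        have := congrFun h1 ⟨0, Nat.pos_of_ne_zero hm⟩
        simp at this
      subst hm
      unfold qf
      rw [Matrix.det_fin_zero]
      exact zero_le_one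
    · exact Real.rpow_nonneg (hqf η i).le _
  -- insertion
  have hins : ∀ (η : Finset (Fin n × Y)) (x : Fin n × Y), x ∉ η →
      dd (fun η => Matrix.trace (BB V Z (tau δ r η))) η x
        = r x.2 / (1 + r x.2 * hh V (tau δ r η) x.1) * ka V Z (tau δ r η) x.1 ∧
      W1 V δ r z (insert x η)
        = z x.2 * (1 + r x.2 * hh V (tau δ r η) x.1) ^ (-(1 / 2) : ℝ) * W1 V δ r z η ∧
      dirq V Z δ r (insert x η) x.1
        = dirq V Z δ r η x.1 * (1 + r x.2 * hh V (tau δ r η) x.1) ^ (-3 : ℝ) := by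
    intro η x hx
    have hu := hU n m V Z hV _ (hog η) x.1 (r x.2) (hM.r0 x.2).le
    have ht := mf2_tau δ r η x hx
    refine ⟨?_, ?_, ?_⟩
    · unfold dd
      dsimp only
      rw [ht, hu.2.2.2.2.2.2.1, Matrix.trace_add, Matrix.trace_smul, Matrix.trace_vecMulVec,
        smul_eq_mul, add_sub_cancel_left]
      rfl
    · unfold W1
      rw [ht, hu.2.2.2.2.1, Real.mul_rpow hu.2.1.le (hb η x).le]
      have : zw z (insert x η) = z x.2 * zw z η := by
        unfold zw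
        rw [Finset.prod_insert hx]
      rw [this]; ring
    · unfold dirq
      rw [ht, hu.2.2.2.2.2.2.2.1, hu.2.2.2.2.2.2.2.2]
      have e : (1 + r x.2 * hh V (tau δ r η) x.1) ^ (-3 : ℝ)
          = ((1 + r x.2 * hh V (tau δ r η) x.1) ^ 3)⁻¹ := by
        rw [Real.rpow_neg (hb η x).le, ← Real.rpow_natCast]; norm_num
      rw [e]
      have hb1 := (hb η x).ne'
      rcases (hh0 η x.1).1.eq_or_lt with h0 | h0
      · rw [← h0]; simp
      · have := h0.ne'
        field_simp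
  have hq0 : ∀ (η : Finset (Fin n × Y)) (i : Fin n), 0 ≤ dirq V Z δ r η i := fun η i =>
    div_nonneg (sq_nonneg _) (hh0 η i).1
  -- the sum over the points of `η`
  set R : ℝ := ∑ η : Finset (Fin n × Y), W1 V δ r z η * ∑ x ∈ η, r x.2 * dirq V Z δ r η x.1
    with hR
  have hGNZ : R = ∑ η : Finset (Fin n × Y), W1 V δ r z η * ∑ x ∈ ηᶜ,
      z x.2 * r x.2 * (1 + r x.2 * hh V (tau δ r η) x.1) ^ (-(7 / 2) : ℝ)
        * dirq V Z δ r η x.1 := by
    have h := hN (Fin n × Y) (W1 V δ r z)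
      (fun η x => z x.2 * (1 + r x.2 * hh V (tau δ r η) x.1) ^ (-(1 / 2) : ℝ))
      (fun η x hx => (hins η x hx).2.1)
      (fun η x => r x.2 * dirq V Z δ r (insert x η) x.1)
    rw [hR]
    refine Eq.trans ?_ (h.trans ?_)
    · refine Finset.sum_congr rfl fun η _ => ?_
      congr 1
      refine Finset.sum_congr rfl fun x hx => ?_
      rw [Finset.insert_erase hx]
    · refine Finset.sum_congr rfl fun η _ => ?_
      congr 1
      refine Finset.sum_congr rfl fun x hx => ?_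
      have hx' : x ∉ η := by simpa using hx
      rw [(hins η x hx').2.2]
      have e : (1 + r x.2 * hh V (tau δ r η) x.1) ^ (-(7 / 2) : ℝ)
          = (1 + r x.2 * hh V (tau δ r η) x.1) ^ (-(1 / 2) : ℝ)
            * (1 + r x.2 * hh V (tau δ r η) x.1) ^ (-3 : ℝ) := by
        rw [← Real.rpow_add (hb η x)]; norm_num
      rw [e]; ring
  -- the pointwise bound
  have hpt : ∀ η : Finset (Fin n × Y),
      ∑ x ∈ ηᶜ, z x.2 * (1 + r x.2 * hh V (tau δ r η) x.1) ^ (-(1 / 2) : ℝ)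
          * dd (fun η => Matrix.trace (BB V Z (tau δ r η))) η x ^ 2
      ≤ 15 / 112 * (δ * ∑ i, dirq V Z δ r η i
          + (∑ x ∈ η, z x.2 * r x.2 * (1 + r x.2 * hh V (tau δ r η) x.1) ^ (-(7 / 2) : ℝ)
            * dirq V Z δ r η x.1
          + ∑ x ∈ ηᶜ, z x.2 * r x.2 * (1 + r x.2 * hh V (tau δ r η) x.1) ^ (-(7 / 2) : ℝ)
            * dirq V Z δ r η x.1)) := by
    intro η
    have h1 : ∑ x ∈ ηᶜ, z x.2 * (1 + r x.2 * hh V (tau δ r η) x.1) ^ (-(1 / 2) : ℝ)
          * dd (fun η => Matrix.trace (BB V Z (tau δ r η))) η x ^ 2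
        ≤ ∑ i, ∑ y, ka V Z (tau δ r η) i ^ 2
          * (z y * r y ^ 2 * (1 + r y * hh V (tau δ r η) i) ^ (-(5 / 2) : ℝ)) := by
      have h2 : ∑ x ∈ ηᶜ, z x.2 * (1 + r x.2 * hh V (tau δ r η) x.1) ^ (-(1 / 2) : ℝ)
          * dd (fun η => Matrix.trace (BB V Z (tau δ r η))) η x ^ 2
          = ∑ x ∈ ηᶜ, ka V Z (tau δ r η) x.1 ^ 2
          * (z x.2 * r x.2 ^ 2 * (1 + r x.2 * hh V (tau δ r η) x.1) ^ (-(5 / 2) : ℝ)) := by
        refine Finset.sum_congr rfl fun x hx => ?_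
        have hx' : x ∉ η := by simpa using hx
        rw [(hins η x hx').1]
        have e : (1 + r x.2 * hh V (tau δ r η) x.1) ^ (-(5 / 2) : ℝ)
            = (1 + r x.2 * hh V (tau δ r η) x.1) ^ (-(1 / 2) : ℝ)
              * ((1 + r x.2 * hh V (tau δ r η) x.1) ^ 2)⁻¹ := by
          rw [show (-(5 / 2) : ℝ) = -(1 / 2) + -2 by norm_num, Real.rpow_add (hb η x)]
          congr 1
          rw [Real.rpow_neg (hb η x).le, ← Real.rpow_natCast]; norm_num
        rw [e]
        have := (hb η x).ne'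
        field_simp
      rw [h2, dir_split η (fun x => ka V Z (tau δ r η) x.1 ^ 2
          * (z x.2 * r x.2 ^ 2 * (1 + r x.2 * hh V (tau δ r η) x.1) ^ (-(5 / 2) : ℝ)))]
      refine le_add_of_nonneg_left (Finset.sum_nonneg fun x _ => ?_)
      exact mul_nonneg (sq_nonneg _) (mul_nonneg (mul_nonneg (hM.z0 _).le (sq_nonneg _))
        (Real.rpow_nonneg (hb η x).le _))
    refine h1.trans ?_
    rw [← dir_split η (fun x => z x.2 * r x.2
      * (1 + r x.2 * hh V (tau δ r η) x.1) ^ (-(7 / 2) : ℝ) * dirq V Z δ r η x.1),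
      Finset.mul_sum, ← Finset.sum_add_distrib, Finset.mul_sum]
    refine Finset.sum_le_sum fun i _ => ?_
    dsimp only
    rw [← Finset.mul_sum, ← Finset.sum_mul]
    rcases (hh0 η i).1.eq_or_lt with h0 | h0
    · have hk : ka V Z (tau δ r η) i = 0 := dir_ka0 V Z _ i ((hh0 η i).2 h0.symm)
      unfold dirq
      rw [hk]; simp
    · have h3 := hH Y s ζ δ r z hM (hh V (tau δ r η) i) h0.le
      have h4 : ka V Z (tau δ r η) i ^ 2
          = dirq V Z δ r η i * hh V (tau δ r η) i := by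
        unfold dirq
        rw [div_mul_cancel₀ _ h0.ne']
      rw [h4]
      calc dirq V Z δ r η i * hh V (tau δ r η) i
            * ∑ y, z y * r y ^ 2 * (1 + r y * hh V (tau δ r η) i) ^ (-(5 / 2) : ℝ)
          = dirq V Z δ r η i * (hh V (tau δ r η) i
            * ∑ y, z y * r y ^ 2 * (1 + r y * hh V (tau δ r η) i) ^ (-(5 / 2) : ℝ)) := by ring
        _ ≤ dirq V Z δ r η i * (15 / 112 * (δ + ∑ y, z y * r y
              * (1 + r y * hh V (tau δ r η) i) ^ (-(7 / 2) : ℝ))) :=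
            mul_le_mul_of_nonneg_left h3 (hq0 η i)
        _ = _ := by ring
  -- the terms with `x ∈ η`
  have hin : ∀ η : Finset (Fin n × Y),
      ∑ x ∈ η, z x.2 * r x.2 * (1 + r x.2 * hh V (tau δ r η) x.1) ^ (-(7 / 2) : ℝ)
            * dirq V Z δ r η x.1
      ≤ ζ * ∑ x ∈ η, r x.2 * dirq V Z δ r η x.1 := by
    intro η
    rw [Finset.mul_sum]
    refine Finset.sum_le_sum fun x _ => ?_
    have h1 : (1 + r x.2 * hh V (tau δ r η) x.1) ^ (-(7 / 2) : ℝ) ≤ 1 := by
      apply Real.rpow_le_one_of_one_le_of_nonpos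
      · have := mul_nonneg (hM.r0 x.2).le (hh0 η x.1).1; linarith
      · norm_num
    have h2 : z x.2 * (1 + r x.2 * hh V (tau δ r η) x.1) ^ (-(7 / 2) : ℝ) ≤ ζ * 1 :=
      mul_le_mul (hM.z1 _) h1 (Real.rpow_nonneg (hb η x).le _) hM.k0.le
    have h3 : 0 ≤ r x.2 * dirq V Z δ r η x.1 := mul_nonneg (hM.r0 _).le (hq0 η _)
    have h4 := mul_le_mul_of_nonneg_right h2 h3
    calc _ = z x.2 * (1 + r x.2 * hh V (tau δ r η) x.1) ^ (-(7 / 2) : ℝ)
          * (r x.2 * dirq V Z δ r η x.1) := by ring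
      _ ≤ _ := h4
      _ = _ := by ring
  have htau : ∀ η : Finset (Fin n × Y), ∑ i, tau δ r η i * dirq V Z δ r η i
      = δ * ∑ i, dirq V Z δ r η i + ∑ x ∈ η, r x.2 * dirq V Z δ r η x.1 := by
    intro η
    have h1 : ∑ x ∈ η, r x.2 * dirq V Z δ r η x.1
        = ∑ i, (∑ y, if (i, y) ∈ η then r y else 0) * dirq V Z δ r η i := by
      have h2 : ∑ x ∈ η, r x.2 * dirq V Z δ r η x.1
          = ∑ x : Fin n × Y, if x ∈ η then r x.2 * dirq V Z δ r η x.1 else 0 := by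
        rw [Finset.sum_ite_mem, Finset.univ_inter]
      rw [h2, Fintype.sum_prod_type]
      refine Finset.sum_congr rfl fun i _ => ?_
      rw [Finset.sum_mul]
      refine Finset.sum_congr rfl fun y _ => ?_
      split_ifs <;> simp
    rw [h1, Finset.mul_sum, ← Finset.sum_add_distrib]
    refine Finset.sum_congr rfl fun i _ => ?_
    unfold tau
    ring
  have hsg : ∀ η : Finset (Fin n × Y), ∑ i, tau δ r η i * dirq V Z δ r η i
      ≤ sgm V Z (tau δ r η) := fun η => (hS n m V Z hV _ (hog η)).2.2.1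
  -- summation
  set A : ℝ := ∑ η : Finset (Fin n × Y), W1 V δ r z η * (δ * ∑ i, dirq V Z δ r η i) with hA
  set L : ℝ := ∑ η : Finset (Fin n × Y), W1 V δ r z η * sgm V Z (tau δ r η) with hL
  have hA0 : 0 ≤ A := Finset.sum_nonneg fun η _ => mul_nonneg (hW0 η)
    (mul_nonneg hM.d0.le (Finset.sum_nonneg fun i _ => hq0 η i))
  have hR0 : 0 ≤ R := Finset.sum_nonneg fun η _ => mul_nonneg (hW0 η)
    (Finset.sum_nonneg fun x _ => mul_nonneg (hM.r0 _).le (hq0 η _))
  have hAR : A + R ≤ L := by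
    rw [hA, hR, hL, ← Finset.sum_add_distrib]
    refine Finset.sum_le_sum fun η _ => ?_
    rw [← mul_add, ← htau]
    exact mul_le_mul_of_nonneg_left (hsg η) (hW0 η)
  have hmain : ∑ η : Finset (Fin n × Y), W1 V δ r z η * ∑ x ∈ ηᶜ,
        z x.2 * (1 + r x.2 * hh V (tau δ r η) x.1) ^ (-(1 / 2) : ℝ)
          * dd (fun η => Matrix.trace (BB V Z (tau δ r η))) η x ^ 2
      ≤ 15 / 112 * (A + (ζ * R + R)) := by
    have h1 : (15 / 112 : ℝ) * (A + (ζ * R + R)) = ∑ η : Finset (Fin n × Y), W1 V δ r z η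
        * (15 / 112 * (δ * ∑ i, dirq V Z δ r η i
          + (ζ * ∑ x ∈ η, r x.2 * dirq V Z δ r η x.1
          + ∑ x ∈ ηᶜ, z x.2 * r x.2 * (1 + r x.2 * hh V (tau δ r η) x.1) ^ (-(7 / 2) : ℝ)
            * dirq V Z δ r η x.1))) := by
      have h2 : ζ * R + R = ∑ η : Finset (Fin n × Y), W1 V δ r z η
          * (ζ * ∑ x ∈ η, r x.2 * dirq V Z δ r η x.1)
          + ∑ η : Finset (Fin n × Y), W1 V δ r z η * ∑ x ∈ ηᶜ,
      z x.2 * r x.2 * (1 + r x.2 * hh V (tau δ r η) x.1) ^ (-(7 / 2) : ℝ)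
        * dirq V Z δ r η x.1 := by
        rw [← hGNZ]
        congr 1
        rw [hR, Finset.mul_sum]
        refine Finset.sum_congr rfl fun η _ => ?_
        ring
      rw [h2, hA, ← Finset.sum_add_distrib, ← Finset.sum_add_distrib, Finset.mul_sum]
      refine Finset.sum_congr rfl fun η _ => ?_
      ring
    rw [h1]
    refine Finset.sum_le_sum fun η _ => mul_le_mul_of_nonneg_left ((hpt η).trans ?_) (hW0 η)
    have := hin η
    linarith
  refine hmain.trans ?_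
  have hk1 := hM.k1
  have hk0 := hM.k0
  have hζR : ζ * R ≤ 1 / 1000 * R := mul_le_mul_of_nonneg_right hk1 hR0
  linarith

end Pool.Agent.Helper44.GH
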