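import Pool.Agent.Helper44.GH.Stmts

open Finset MeasureTheory Filter Topology Matrix
open scoped ENNReal ContDiff

namespace Pool.Agent.Helper44.GH

open Pool.Agent.Helper44.GF Pool.Agent.Helper44.GN

/-- The Gamma integral. -/
theorem h1i_gam (a b : ℝ) (ha : 0 < a) (hb : 0 < b) :
    IntegrableOn (fun x : ℝ => x ^ (a - 1) * Real.exp (-(b * x))) (Set.Ioi 0) ∧
    ∫ x in Set.Ioi (0 : ℝ), x ^ (a - 1) * Real.exp (-(b * x)) = Real.Gamma a * b ^ (-a) := by
  constructor
  · have h := integrableOn_rpow_mul_exp_neg_mul_rpow (p := 1) (s := a - 1) (b := b)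
      (by linarith) one_pos hb
    refine h.congr_fun ?_ measurableSet_Ioi
    intro x hx
    simp only [Real.rpow_one, neg_mul]
  · rw [Real.integral_rpow_mul_exp_neg_mul_Ioi ha hb, mul_comm, one_div,
      Real.inv_rpow hb.le, ← Real.rpow_neg hb.le]

/-- The integrated form of `H1`. -/
theorem h1i_int {Y : Type} [Fintype Y] (s δ : ℝ) (r z : Y → ℝ) (hr : ∀ y, 0 < r y)
    (hH : H1 δ r z s) (h : ℝ) (hh : 0 < h) (a : ℝ) (ha : 0 < a) :
    a * (h * ∑ y, z y * r y ^ 2 * (1 + r y * h) ^ (-(a + 1)))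
      ≤ s * (δ + ∑ y, z y * r y * (1 + r y * h) ^ (-a)) := by
  have hb : ∀ y, 0 < 1 + r y * h := fun y => by have := mul_pos (hr y) hh; linarith
  have hG : 0 < Real.Gamma a := Real.Gamma_pos_of_pos ha
  have hG1 : Real.Gamma (a + 1) = a * Real.Gamma a := Real.Gamma_add_one ha.ne'
  -- the two integrands
  set f : ℝ → ℝ := fun x => ∑ y, h * (z y * r y ^ 2) *
    (x ^ (a + 1 - 1) * Real.exp (-((1 + r y * h) * x))) with hf
  set g : ℝ → ℝ := fun x => s * (δ * (x ^ (a - 1) * Real.exp (-(1 * x))) + ∑ y, z y * r y *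
    (x ^ (a - 1) * Real.exp (-((1 + r y * h) * x)))) with hg
  have hfi : IntegrableOn f (Set.Ioi 0) := by
    apply integrable_finsetSum
    intro y _
    exact ((h1i_gam (a + 1) _ (by linarith) (hb y)).1).const_mul _
  have hgi : IntegrableOn g (Set.Ioi 0) := by
    apply Integrable.const_mul
    apply Integrable.add
    · exact ((h1i_gam a 1 ha one_pos).1).const_mul _
    · apply integrable_finsetSum
      intro y _
      exact ((h1i_gam a _ ha (hb y)).1).const_mul _
  have hle : ∫ x in Set.Ioi (0 : ℝ), f x ≤ ∫ x in Set.Ioi (0 : ℝ), g x := by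
    apply setIntegral_mono_on hfi hgi measurableSet_Ioi
    intro x hx
    have hx0 : (0 : ℝ) < x := hx
    have h1 := hH (h * x) (mul_pos hh hx0)
    have h2 : f x = x ^ (a - 1) * Real.exp (-(1 * x)) *
        (h * x * ∑ y, z y * r y ^ 2 * Real.exp (-(h * x * r y))) := by
      simp only [hf]
      rw [Finset.mul_sum, Finset.mul_sum]
      refine Finset.sum_congr rfl fun y _ => ?_
      have e1 : x ^ (a + 1 - 1) = x ^ (a - 1) * x := by
        rw [show a + 1 - 1 = (a - 1) + 1 by ring, Real.rpow_add hx0, Real.rpow_one]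
      have e2 : Real.exp (-((1 + r y * h) * x))
          = Real.exp (-(1 * x)) * Real.exp (-(h * x * r y)) := by
        rw [← Real.exp_add]; congr 1; ring
      rw [e1, e2]; ring
    have h3 : g x = x ^ (a - 1) * Real.exp (-(1 * x)) * (s * m1 δ r z (h * x)) := by
      simp only [hg, m1]
      have : ∑ y, z y * r y * (x ^ (a - 1) * Real.exp (-((1 + r y * h) * x)))
          = x ^ (a - 1) * Real.exp (-(1 * x)) * ∑ y, z y * r y * Real.exp (-(h * x * r y)) := by
        rw [Finset.mul_sum]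
        refine Finset.sum_congr rfl fun y _ => ?_
        have e2 : Real.exp (-((1 + r y * h) * x))
            = Real.exp (-(1 * x)) * Real.exp (-(h * x * r y)) := by
          rw [← Real.exp_add]; congr 1; ring
        rw [e2]; ring
      rw [this]; ring
    rw [h2, h3]
    exact mul_le_mul_of_nonneg_left h1
      (mul_nonneg (Real.rpow_nonneg hx0.le _) (Real.exp_pos _).le)
  have hF : ∫ x in Set.Ioi (0 : ℝ), f x
      = Real.Gamma a * (a * (h * ∑ y, z y * r y ^ 2 * (1 + r y * h) ^ (-(a + 1)))) := by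
    simp only [hf]
    rw [integral_finsetSum]
    · rw [Finset.mul_sum, Finset.mul_sum, Finset.mul_sum]
      refine Finset.sum_congr rfl fun y _ => ?_
      rw [integral_const_mul, (h1i_gam (a + 1) _ (by linarith) (hb y)).2, hG1]
      ring
    · intro y _
      exact ((h1i_gam (a + 1) _ (by linarith) (hb y)).1).const_mul _
  have hGg : ∫ x in Set.Ioi (0 : ℝ), g x
      = Real.Gamma a * (s * (δ + ∑ y, z y * r y * (1 + r y * h) ^ (-a))) := by
    simp only [hg]
    rw [integral_const_mul, integral_add, integral_const_mul, (h1i_gam a 1 ha one_pos).2,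
      integral_finsetSum]
    · have : ∀ y, ∫ x in Set.Ioi (0 : ℝ), z y * r y *
          (x ^ (a - 1) * Real.exp (-((1 + r y * h) * x)))
          = Real.Gamma a * (z y * r y * (1 + r y * h) ^ (-a)) := by
        intro y
        rw [integral_const_mul, (h1i_gam a _ ha (hb y)).2]; ring
      simp only [this]
      rw [← Finset.mul_sum, Real.one_rpow]; ring
    · intro y _
      exact ((h1i_gam a _ ha (hb y)).1).const_mul _
    · exact ((h1i_gam a 1 ha one_pos).1).const_mul _
    · apply integrable_finsetSum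
      intro y _
      exact ((h1i_gam a _ ha (hb y)).1).const_mul _
  rw [hF, hGg] at hle
  exact le_of_mul_le_mul_left hle hG

theorem st_H1I : ST_H1I := by
  intro Y _ s ζ δ r z hM h h0
  have hs : s ≤ 1 / 6 := by
    have := hM.hs; have := hM.k0; have := hM.s0
    nlinarith
  have hb : ∀ y, 0 < 1 + r y * h := fun y => by
    have := mul_nonneg (hM.r0 y).le h0; linarith
  have hm : 0 ≤ δ + ∑ y, z y * r y * (1 + r y * h) ^ (-(7 / 2) : ℝ) :=
    add_nonneg hM.d0.le (Finset.sum_nonneg fun y _ =>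
      mul_nonneg (mul_nonneg (hM.z0 y).le (hM.r0 y).le) (Real.rpow_nonneg (hb y).le _))
  rcases h0.eq_or_lt with h1 | h1
  · rw [← h1, zero_mul]
    rw [← h1] at hm
    linarith
  have A := h1i_int s δ r z hM.r0 hM.h1 h h1 (3 / 2) (by norm_num)
  have B := h1i_int s δ r z hM.r0 hM.h1 h h1 (5 / 2) (by norm_num)
  have key : ∀ a : ℝ, δ + ∑ y, z y * r y * (1 + r y * h) ^ (-a)
      = (δ + ∑ y, z y * r y * (1 + r y * h) ^ (-(a + 1)))
        + h * ∑ y, z y * r y ^ 2 * (1 + r y * h) ^ (-(a + 1)) := by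
    intro a
    rw [Finset.mul_sum, add_assoc, ← Finset.sum_add_distrib]
    congr 1
    refine Finset.sum_congr rfl fun y _ => ?_
    have : (1 + r y * h) ^ (-a) = (1 + r y * h) ^ (-(a + 1)) * (1 + r y * h) := by
      rw [show -a = -(a + 1) + 1 by ring, Real.rpow_add (hb y), Real.rpow_one]
    rw [this]; ring
  have K1 := key (3 / 2)
  have K2 := key (5 / 2)
  rw [show (3 / 2 + 1 : ℝ) = 5 / 2 by norm_num] at A K1
  rw [show (5 / 2 + 1 : ℝ) = 7 / 2 by norm_num] at B K2
  rw [K1] at A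
  set m7 := δ + ∑ y, z y * r y * (1 + r y * h) ^ (-(7 / 2) : ℝ) with hm7
  set m5 := δ + ∑ y, z y * r y * (1 + r y * h) ^ (-(5 / 2) : ℝ) with hm5
  set T5 := h * ∑ y, z y * r y ^ 2 * (1 + r y * h) ^ (-(5 / 2) : ℝ) with hT5
  set T7 := h * ∑ y, z y * r y ^ 2 * (1 + r y * h) ^ (-(7 / 2) : ℝ) with hT7
  have hT50 : 0 ≤ T5 := mul_nonneg h0 (Finset.sum_nonneg fun y _ =>
    mul_nonneg (mul_nonneg (hM.z0 y).le (sq_nonneg _)) (Real.rpow_nonneg (hb y).le _))
  have hm50 : 0 ≤ m5 := add_nonneg hM.d0.le (Finset.sum_nonneg fun y _ =>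
      mul_nonneg (mul_nonneg (hM.z0 y).le (hM.r0 y).le) (Real.rpow_nonneg (hb y).le _))
  have A1 : 3 / 2 * T5 ≤ 1 / 6 * (m5 + T5) :=
    A.trans (mul_le_mul_of_nonneg_right hs (by linarith))
  have B1 : 5 / 2 * T7 ≤ 1 / 6 * m5 :=
    B.trans (mul_le_mul_of_nonneg_right hs hm50)
  linarith

end Pool.Agent.Helper44.GH
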